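import Pool.Agent.Helper15.DAF.Stmts

/-!
# DAF row IND3

Lower bound for the dimensions of the filtration of the delta module (from IND1, IND2).
-/

open AlgebraicGeometry CategoryTheory TopologicalSpace Opposite

namespace Pool.Agent.Helper15.DAF

namespace S49

variable {K : Type} [Field K] [Algebra ℂ K] {B : Subalgebra ℂ K} {m : Set K} {n : ℕ}

theorem fil_mono (T : Fin n → Dop B) : Monotone (Fil B m T) :=
  monotone_nat_of_le_succ fun _ => le_sup_left

theorem fil_act (T : Fin n → Dop B) (i : Fin n) (k : ℕ) {z : Del B m}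
    (hz : z ∈ Fil B m T k) : act B m (T i) z ∈ Fil B m T (k + 1) := by
  have h : (Fil B m T k).map (act B m (T i)) ≤ Fil B m T (k + 1) :=
    (le_iSup (fun i => (Fil B m T k).map (act B m (T i))) i).trans le_sup_right
  exact h (Submodule.mem_map_of_mem hz)

theorem fil_pow (T : Fin n → Dop B) (t : Fin n → Module.End ℂ K)
    (hT : ∀ i, (T i : Module.End ℂ K) = t i) (i : Fin n) (Q : Module.End ℂ K) (k : ℕ)
    (hQ : cls B m Q ∈ Fil B m T k) (a : ℕ) : cls B m (t i ^ a * Q) ∈ Fil B m T (k + a) := by
  induction a with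
  | zero =>
    rw [pow_zero, one_mul]
    exact hQ
  | succ a ih =>
    have h := fil_act T i (k + a) ih
    rw [act_cls, hT, ← mul_assoc, ← pow_succ'] at h
    exact h

theorem fil_list (T : Fin n → Dop B) (t : Fin n → Module.End ℂ K)
    (hT : ∀ i, (T i : Module.End ℂ K) = t i) (α : Fin n → ℕ) (l : List (Fin n)) :
    cls B m ((l.map fun i => t i ^ α i).prod) ∈ Fil B m T (l.map α).sum := by
  induction l with
  | nil => exact Submodule.mem_span_singleton_self _
  | cons i l ih =>
    simp only [List.map_cons, List.prod_cons, List.sum_cons]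
    rw [add_comm]
    exact fil_pow T t hT i _ _ ih _

theorem fil_tmon (T : Fin n → Dop B) (t : Fin n → Module.End ℂ K)
    (hT : ∀ i, (T i : Module.End ℂ K) = t i) {N : ℕ} (α : Fin n → ℕ) (hα : ∀ i, α i ≤ N) :
    cls B m (tmon t α) ∈ Fil B m T (n * N) := by
  have h := fil_list (m := m) T t hT α (List.finRange n)
  rw [← List.ofFn_eq_map, ← List.ofFn_eq_map, List.sum_ofFn] at h
  refine fil_mono T ?_ h
  calc ∑ i, α i ≤ ∑ _i : Fin n, N := Finset.sum_le_sum fun i _ => hα i
    _ = n * N := by simp

theorem mulOp_add (a b : K) : mulOp (a + b) = mulOp a + mulOp b := by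
  apply LinearMap.ext
  intro x
  exact add_mul a b x

theorem mulOp_zero : mulOp (0 : K) = 0 := by
  apply LinearMap.ext
  intro x
  exact zero_mul x

theorem mulOp_sub (a b : K) : mulOp (a - b) = mulOp a - mulOp b := by
  apply LinearMap.ext
  intro x
  exact sub_mul a b x

theorem mulOp_const (c : ℂ) : mulOp (algebraMap ℂ K c) = c • (1 : Module.End ℂ K) := by
  apply LinearMap.ext
  intro x
  change algebraMap ℂ K c * x = c • x
  rw [Algebra.smul_def]

/-- independence of the classes of the ordered monomials in a box -/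
theorem indep (h1 : ST_IND1) (h2 : ST_IND2) {t : Fin n → Module.End ℂ K} {y : Fin n → K}
    (hm : Pt B m) (hc : IsCoord B n t y) {J : Type} [Fintype J] (ι : J → Fin n → ℕ)
    (hι : Function.Injective ι) (g : J → ℂ)
    (hg : ∑ β, g β • cls B m (tmon t (ι β)) = 0) : ∀ β, g β = 0 := by
  classical
  have hP : ∑ β, g β • tmon t (ι β) ∈ Jm B m := by
    rw [← Submodule.Quotient.mk_eq_zero]
    have h3 : (Submodule.Quotient.mk (∑ β, g β • tmon t (ι β)) : Del B m) =
        ∑ β, g β • cls B m (tmon t (ι β)) := by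
      change (Jm B m).mkQ (∑ β, g β • tmon t (ι β)) = _
      rw [map_sum]
      refine Finset.sum_congr rfl fun β _ => ?_
      rw [map_smul]
      rfl
    rw [h3]
    exact hg
  obtain ⟨A, c, hcm, hPA⟩ := h2 K B m n t y hm hc _ hP
  let g' : (Fin n → ℕ) → K := fun α => if h : ∃ β, ι β = α then algebraMap ℂ K (g h.choose) else 0
  have hg' : ∀ β, g' (ι β) = algebraMap ℂ K (g β) := by
    intro β
    have hex : ∃ β', ι β' = ι β := ⟨β, rfl⟩
    have h3 : hex.choose = β := hι hex.choose_spec
    change (if h : ∃ β', ι β' = ι β then algebraMap ℂ K (g h.choose) else 0) = _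
    rw [dif_pos hex, h3]
  have hg0 : ∀ α, α ∉ Finset.univ.image ι → g' α = 0 := by
    intro α hα
    apply dif_neg
    rintro ⟨β, rfl⟩
    exact hα (Finset.mem_image_of_mem _ (Finset.mem_univ β))
  have e1 : ∑ β, g β • tmon t (ι β) =
      ∑ α ∈ A ∪ Finset.univ.image ι, tmon t α * mulOp (g' α) := by
    have h3 : ∑ α ∈ Finset.univ.image ι, tmon t α * mulOp (g' α) =
        ∑ α ∈ A ∪ Finset.univ.image ι, tmon t α * mulOp (g' α) := by
      apply Finset.sum_subset Finset.subset_union_right
      intro α _ hα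
      rw [hg0 α hα, mulOp_zero, mul_zero]
    rw [← h3, Finset.sum_image fun a _ b _ h => hι h]
    refine Finset.sum_congr rfl fun β _ => ?_
    rw [hg', mulOp_const, mul_smul_comm, mul_one]
  have e2 : ∑ α ∈ A, tmon t α * mulOp (c α) =
      ∑ α ∈ A ∪ Finset.univ.image ι, tmon t α * mulOp (if α ∈ A then c α else 0) := by
    have h3 : ∑ α ∈ A, tmon t α * mulOp (if α ∈ A then c α else 0) =
        ∑ α ∈ A ∪ Finset.univ.image ι, tmon t α * mulOp (if α ∈ A then c α else 0) := by
      apply Finset.sum_subset Finset.subset_union_left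
      intro α _ hα
      rw [if_neg hα, mulOp_zero, mul_zero]
    rw [← h3]
    refine Finset.sum_congr rfl fun α hα => ?_
    rw [if_pos hα]
  have e3 : ∑ α ∈ A ∪ Finset.univ.image ι,
      tmon t α * mulOp (g' α - if α ∈ A then c α else 0) = 0 := by
    simp only [mulOp_sub, mul_sub]
    rw [Finset.sum_sub_distrib, ← e1, ← e2, hPA, sub_self]
  intro β
  have h3 := h1 K B n t y hc (A ∪ Finset.univ.image ι) _ e3 (ι β)
    (Finset.mem_union_right _ (Finset.mem_image_of_mem _ (Finset.mem_univ β)))
  have h4 : g' (ι β) ∈ m := by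
    rw [sub_eq_zero.1 h3]
    split_ifs
    · exact hcm _
    · exact hm.zero
  rw [hg'] at h4
  by_contra h0
  apply hm.one
  have h5 := hm.mul (algebraMap ℂ K (g β)⁻¹) (B.algebraMap_mem _) _ h4
  rwa [← map_mul, inv_mul_cancel₀ h0, map_one] at h5

end S49

open S49 in
theorem st_IND3 (h1 : ST_IND1) (h2 : ST_IND2) : ST_IND3 := by
  intro K _ _ B m n t y hm hc T hT hfin N
  have hfd := hfin (n * N)
  let v : (Fin n → Fin (N + 1)) → Fil B m T (n * N) := fun β =>
    ⟨cls B m (tmon t fun i => (β i : ℕ)),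
      fil_tmon T t hT _ fun i => Nat.lt_succ_iff.1 (β i).2⟩
  have hv : LinearIndependent ℂ v := by
    rw [Fintype.linearIndependent_iff]
    intro g hg
    refine indep h1 h2 hm hc (fun (β : Fin n → Fin (N + 1)) i => (β i : ℕ)) ?_ g ?_
    · intro β β' h
      funext i
      exact Fin.ext (congrFun h i)
    · have h3 := congrArg (Fil B m T (n * N)).subtype hg
      rw [map_sum, map_zero] at h3
      rw [← h3]
      refine Finset.sum_congr rfl fun β _ => ?_
      rw [map_smul]
      rfl
  have h3 := hv.fintype_card_le_finrank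
  simpa using h3

end Pool.Agent.Helper15.DAF
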